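import Mathlib

/-!
# The strong clique game: bounded or at least linear

`WinsIn V q t` says that the first player wins the strong `q`-clique game on the complete graph with
the vertex set `V` within `t` of his moves. The theorem: either the first player wins on all large
boards within a bounded number of moves, or for every `n` he cannot win on `n` vertices within
`n / 4 + 1` moves. In other words: a single win which is short compared with the board settles all
boards. The bounded case is also equivalent to a win within some number of moves on the infinite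
board.

Outline: a play of `t` rounds touches at most `4 t` vertices. So a strategy for a board with enough
vertices can be used on every other board with enough vertices: there is an injection of one vertex
set into the other which maps the position to the position, and this injection can be changed at
untouched vertices in such a way that the next edge is in its image.
-/

set_option autoImplicit false

namespace Pool.Agent.Results.MP_4a944d_co.BoundedOrLinear

open scoped Classical

/-- The edges in `A` contain a clique with `q` vertices. -/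
def HasClique {V : Type*} (q : ℕ) (A : Finset (Sym2 V)) : Prop :=
  ∃ K : Finset V, K.card = q ∧ ∀ a ∈ K, ∀ b ∈ K, a ≠ b → s(a, b) ∈ A

/-- The edge `e` is not a loop and not yet claimed (the players own the edges in `A` and in `B`). -/
def Free {V : Type*} (A B : Finset (Sym2 V)) (e : Sym2 V) : Prop := ¬ e.IsDiag ∧ e ∉ A ∧ e ∉ B

/-- The first player owns the edges in `A`, the second player those in `B`, neither has a clique with
`q` vertices, and the first player is to move: he can complete a clique with `q` vertices, before the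
second player does, within `t` more of his own moves. He needs a free edge `e` which completes a
clique, or a free edge `e` after which the board is not full and such that after every answer `f` of
the second player the latter has no clique and the first player can complete one within `t - 1`
moves. -/
def Win {V : Type*} (q : ℕ) : ℕ → Finset (Sym2 V) → Finset (Sym2 V) → Prop
  | 0, _, _ => False
  | t + 1, A, B => ∃ e, Free A B e ∧ (HasClique q (insert e A) ∨
      ((∃ f, Free (insert e A) B f) ∧ ∀ f, Free (insert e A) B f →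
        ¬ HasClique q (insert f B) ∧ Win q t (insert e A) (insert f B)))

/-- On the complete graph with the vertex set `V` the first player can complete a clique with `q`
vertices, before the second player does, within his first `t` moves. -/
def WinsIn (V : Type*) (q t : ℕ) : Prop := Win q t (∅ : Finset (Sym2 V)) ∅

/-- The image of a set of edges. -/
noncomputable def im {V W : Type*} (ι : V ↪ W) (A : Finset (Sym2 V)) : Finset (Sym2 W) :=
  A.image (Sym2.map ι)

theorem mem_im {V W : Type*} (ι : V ↪ W) (A : Finset (Sym2 V)) (e : Sym2 V) :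
    Sym2.map ι e ∈ im ι A ↔ e ∈ A := by
  unfold im
  rw [Finset.mem_image]
  constructor
  · rintro ⟨e', he', h⟩
    rwa [← Sym2.map.injective ι.injective h]
  · exact fun h => ⟨e, h, rfl⟩

theorem im_insert {V W : Type*} (ι : V ↪ W) (A : Finset (Sym2 V)) (e : Sym2 V) :
    im ι (insert e A) = insert (Sym2.map ι e) (im ι A) := by
  unfold im
  rw [Finset.image_insert]

theorem free_im {V W : Type*} (ι : V ↪ W) (A B : Finset (Sym2 V)) (e : Sym2 V) :
    Free (im ι A) (im ι B) (Sym2.map ι e) ↔ Free A B e := by
  unfold Free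
  rw [mem_im, mem_im]
  induction e with
  | _ a b => simp [Sym2.map_mk]

theorem clique_im {V W : Type*} {q : ℕ} (hq : 2 ≤ q) (ι : V ↪ W) (A : Finset (Sym2 V)) :
    HasClique q (im ι A) ↔ HasClique q A := by
  constructor
  · rintro ⟨K, hK, h⟩
    have hrange : ∀ a ∈ K, ∃ v, ι v = a := by
      intro a ha
      obtain ⟨b, hb, hba⟩ := Finset.exists_mem_ne (show 1 < K.card by omega) a
      have := h a ha b hb hba.symm
      unfold im at this
      rw [Finset.mem_image] at this
      obtain ⟨e, -, he⟩ := this
      have hae : a ∈ Sym2.map ι e := by rw [he]; exact Sym2.mem_mk_left a b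
      obtain ⟨v, -, hv⟩ := Sym2.mem_map.1 hae
      exact ⟨v, hv⟩
    refine ⟨K.preimage ι ι.injective.injOn, ?_, ?_⟩
    · rw [← hK, ← Finset.card_map ι]
      congr 1
      ext a
      simp only [Finset.mem_map, Finset.mem_preimage]
      constructor
      · rintro ⟨v, hv, rfl⟩; exact hv
      · intro ha
        obtain ⟨v, rfl⟩ := hrange a ha
        exact ⟨v, ha, rfl⟩
    · intro a ha b hb hab
      rw [Finset.mem_preimage] at ha hb
      have := h _ ha _ hb (fun h => hab (ι.injective h))
      rw [← mem_im ι]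
      simpa [Sym2.map_mk] using this
  · rintro ⟨K, hK, h⟩
    refine ⟨K.map ι, by rw [Finset.card_map, hK], ?_⟩
    intro a ha b hb hab
    obtain ⟨v, hv, rfl⟩ := Finset.mem_map.1 ha
    obtain ⟨w, hw, rfl⟩ := Finset.mem_map.1 hb
    have := h v hv w hw (fun h => hab (by rw [h]))
    rw [← mem_im ι] at this
    simpa [Sym2.map_mk] using this

/-- Changing the injection at one vertex of `U`. -/
theorem adjust_one {V W : Type*} (ι : V ↪ W) (a' p : W) (hp : p ≠ a') (U : Finset V)
    (hU : 2 ≤ U.card) : ∃ ι₁ : V ↪ W, ∃ a, ι₁ a = a' ∧ (∀ v ∉ U, ι₁ v = ι v) ∧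
      ∀ v, ι v = p → ι₁ v = p := by
  by_cases ha : ∃ a, ι a = a'
  · obtain ⟨a, ha⟩ := ha
    exact ⟨ι, a, ha, fun _ _ => rfl, fun _ h => h⟩
  · push Not at ha
    obtain ⟨u, hu, hup⟩ : ∃ u ∈ U, ι u ≠ p := by
      obtain ⟨u, hu, w, hw, huw⟩ := Finset.one_lt_card.1 hU
      by_cases h : ι u = p
      · refine ⟨w, hw, fun h' => huw (ι.injective (by rw [h, h']))⟩
      · exact ⟨u, hu, h⟩
    refine ⟨ι.trans (Equiv.swap (ι u) a').toEmbedding, u, ?_, ?_, ?_⟩
    · simp
    · intro v hv
      have h1 : ι v ≠ ι u := fun h => hv (by rw [ι.injective h]; exact hu)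
      simp [Equiv.swap_apply_of_ne_of_ne h1 (ha v)]
    · intro v hv
      have h1 : ι v ≠ ι u := by rw [hv]; exact fun h => hup h.symm
      have h2 := Equiv.swap_apply_of_ne_of_ne h1 (ha v)
      rw [hv] at h2
      simp [hv, h2]

/-- Changing the injection at untouched vertices: its image contains the ends of a given edge. -/
theorem adjust {V W : Type*} (ι : V ↪ W) (f' : Sym2 W) (hf' : ¬ f'.IsDiag) (U : Finset V)
    (hU : 2 ≤ U.card) : ∃ ι₁ : V ↪ W, ∃ f : Sym2 V, Sym2.map ι₁ f = f' ∧
      ∀ v ∉ U, ι₁ v = ι v := by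
  induction f' with
  | _ a' b' =>
  have hab : a' ≠ b' := by simpa using hf'
  obtain ⟨ι₁, a, ha, h1, -⟩ := adjust_one ι a' b' hab.symm U hU
  obtain ⟨ι₂, b, hb, h2, h3⟩ := adjust_one ι₁ b' a' hab U hU
  refine ⟨ι₂, s(a, b), ?_, fun v hv => by rw [h2 v hv, h1 v hv]⟩
  rw [Sym2.map_mk, hb, h3 a ha]

theorem im_congr {V W : Type*} (ι ι₁ : V ↪ W) (A : Finset (Sym2 V)) (U : Finset V)
    (hU : ∀ u ∈ U, ∀ e ∈ A, u ∉ e) (h : ∀ v ∉ U, ι₁ v = ι v) : im ι₁ A = im ι A := by
  unfold im
  refine Finset.image_congr fun e he => ?_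
  refine Sym2.map_congr fun v hv => h v fun hvU => hU v hvU e he hv

/-- Removing the ends of an edge from a set of vertices. -/
theorem card_sdiff_edge {V : Type*} (U : Finset V) (e : Sym2 V) :
    U.card ≤ (U.filter fun v => v ∉ e).card + 2 := by
  induction e with
  | _ a b =>
  have h1 : U ⊆ (U.filter fun v => v ∉ s(a, b)) ∪ {a, b} := by
    intro v hv
    by_cases h : v ∈ s(a, b)
    · rw [Finset.mem_union]; right
      simpa using h
    · exact Finset.mem_union_left _ (Finset.mem_filter.2 ⟨hv, h⟩)
  calc U.card ≤ _ := Finset.card_le_card h1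
    _ ≤ _ := Finset.card_union_le _ _
    _ ≤ _ := by
      have : ({a, b} : Finset V).card ≤ 2 := Finset.card_le_two
      omega

/-- A strategy for the smaller board works on the larger board. -/
theorem up {V W : Type*} {q : ℕ} (hq : 2 ≤ q) : ∀ (t : ℕ) (A B : Finset (Sym2 V)), Win q t A B →
    ∀ U : Finset V, 4 * (t - 1) ≤ U.card → (∀ u ∈ U, ∀ e ∈ A ∪ B, u ∉ e) →
    ∀ ι : V ↪ W, Win q t (im ι A) (im ι B) := by
  intro t
  induction t with
  | zero => intro A B h; exact h.elim
  | succ t ih =>
    intro A B h U hU hUA ι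
    obtain ⟨e, he, h⟩ := h
    refine ⟨Sym2.map ι e, (free_im ι A B e).2 he, ?_⟩
    rcases h with h | ⟨⟨f, hf⟩, h⟩
    · left
      rw [← im_insert, clique_im hq]
      exact h
    · right
      refine ⟨⟨Sym2.map ι f, by rw [← im_insert, free_im]; exact hf⟩, fun f' hf' => ?_⟩
      have ht : 1 ≤ t := by
        rcases Nat.eq_zero_or_pos t with h0 | h0
        · subst h0; exact (h f hf).2.elim
        · exact h0
      -- the untouched vertices after the move of the first player
      have hU₁ := card_sdiff_edge U e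
      set U₁ := U.filter fun v => v ∉ e with hU₁def
      have hU₁A : ∀ u ∈ U₁, ∀ e' ∈ insert e A ∪ B, u ∉ e' := by
        intro u hu e' he'
        obtain ⟨hu1, hu2⟩ := Finset.mem_filter.1 hu
        rw [Finset.insert_union, Finset.mem_insert] at he'
        rcases he' with rfl | he'
        · exact hu2
        · exact hUA u hu1 e' he'
      obtain ⟨ι₁, f₁, hf₁, hι₁⟩ := adjust ι f' hf'.1 U₁ (by omega)
      have hA : insert (Sym2.map ι e) (im ι A) = im ι₁ (insert e A) := by
        rw [← im_insert]
        exact (im_congr ι ι₁ _ U₁ (fun u hu e' he' =>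
          hU₁A u hu e' (Finset.mem_union_left _ he')) hι₁).symm
      have hB : im ι B = im ι₁ B := (im_congr ι ι₁ _ U₁ (fun u hu e' he' =>
          hU₁A u hu e' (Finset.mem_union_right _ he')) hι₁).symm
      rw [hA, hB, ← hf₁, free_im] at hf'
      obtain ⟨h1, h2⟩ := h f₁ hf'
      rw [hA, hB, ← hf₁, ← im_insert, clique_im hq]
      refine ⟨h1, ih _ _ h2 (U₁.filter fun v => v ∉ f₁) ?_ ?_ ι₁⟩
      · have := card_sdiff_edge U₁ f₁
        omega
      · intro u hu e' he'
        obtain ⟨hu1, hu2⟩ := Finset.mem_filter.1 hu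
        rw [Finset.union_insert, Finset.mem_insert] at he'
        rcases he' with rfl | he'
        · exact hu2
        · exact hU₁A u hu1 e' he'

/-- A strategy for the larger board works on the smaller board. -/
theorem down {V W : Type*} {q : ℕ} (hq : 2 ≤ q) : ∀ (t : ℕ) (A B : Finset (Sym2 V)) (ι : V ↪ W),
    Win q t (im ι A) (im ι B) →
    ∀ U : Finset V, 4 * t ≤ U.card + 2 → (∀ u ∈ U, ∀ e ∈ A ∪ B, u ∉ e) → Win q t A B := by
  intro t
  induction t with
  | zero => intro A B ι h; exact h.elim
  | succ t ih =>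
    intro A B ι h U hU hUA
    obtain ⟨e', he', h⟩ := h
    obtain ⟨ι₁, e, he, hι₁⟩ := adjust ι e' he'.1 U (by omega)
    have hA : im ι A = im ι₁ A := (im_congr ι ι₁ _ U (fun u hu e' he' =>
      hUA u hu e' (Finset.mem_union_left _ he')) hι₁).symm
    have hB : im ι B = im ι₁ B := (im_congr ι ι₁ _ U (fun u hu e' he' =>
      hUA u hu e' (Finset.mem_union_right _ he')) hι₁).symm
    rw [hA, hB, ← he] at he' h
    rw [← im_insert, clique_im hq] at h
    refine ⟨e, (free_im ι₁ A B e).1 he', ?_⟩
    rcases h with h | ⟨⟨f', hf'⟩, h⟩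
    · exact Or.inl h
    · right
      have ht : 1 ≤ t := by
        rcases Nat.eq_zero_or_pos t with h0 | h0
        · subst h0; exact (h f' hf').2.elim
        · exact h0
      have hU₁ := card_sdiff_edge U e
      set U₁ := U.filter fun v => v ∉ e with hU₁def
      have hU₁A : ∀ u ∈ U₁, ∀ e' ∈ insert e A ∪ B, u ∉ e' := by
        intro u hu e' he'
        obtain ⟨hu1, hu2⟩ := Finset.mem_filter.1 hu
        rw [Finset.insert_union, Finset.mem_insert] at he'
        rcases he' with rfl | he'
        · exact hu2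
        · exact hUA u hu1 e' he'
      refine ⟨?_, fun f hf => ?_⟩
      · obtain ⟨u, hu, w, hw, huw⟩ := Finset.one_lt_card.1 (show 1 < U₁.card by omega)
        refine ⟨s(u, w), by simpa using huw, fun hc => ?_, fun hc => ?_⟩
        · exact hU₁A u hu _ (Finset.mem_union_left _ hc) (Sym2.mem_mk_left u w)
        · exact hU₁A u hu _ (Finset.mem_union_right _ hc) (Sym2.mem_mk_left u w)
      · obtain ⟨h1, h2⟩ := h (Sym2.map ι₁ f) ((free_im ι₁ _ _ _).2 hf)
        rw [← im_insert, clique_im hq] at h1
        rw [← im_insert] at h2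
        refine ⟨h1, ih _ _ ι₁ h2 (U₁.filter fun v => v ∉ f) ?_ ?_⟩
        · have := card_sdiff_edge U₁ f
          omega
        · intro u hu e' he'
          obtain ⟨hu1, hu2⟩ := Finset.mem_filter.1 hu
          rw [Finset.union_insert, Finset.mem_insert] at he'
          rcases he' with rfl | he'
          · exact hu2
          · exact hU₁A u hu1 e' he'

theorem up_start {V W : Type*} {q : ℕ} (hq : 2 ≤ q) {t : ℕ} (h : WinsIn V q t) (U : Finset V)
    (hU : 4 * (t - 1) ≤ U.card) (ι : V ↪ W) : WinsIn W q t := by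
  have := up hq t ∅ ∅ h U hU (by simp) ι
  unfold WinsIn
  simpa [im] using this

theorem down_start {V W : Type*} {q : ℕ} (hq : 2 ≤ q) {t : ℕ} (h : WinsIn W q t) (U : Finset V)
    (hU : 4 * t ≤ U.card + 2) (ι : V ↪ W) : WinsIn V q t := by
  refine down hq t ∅ ∅ ι ?_ U hU (by simp)
  unfold WinsIn at h
  simpa [im] using h

/-- **The theorem.** Let `q ≥ 2`.
(1) If the first player wins on some board with `n ≥ 4 (t - 1)` vertices within `t` moves, then he
does so on all larger boards, and on the infinite board.
(2) If he wins on the infinite board within `t` moves, then he does so on all boards with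
`n ≥ 4 t - 2` vertices.
(3) So there are three equivalent statements: there are `t` and `n₀` such that he wins within `t` moves
on all boards with `n ≥ n₀` vertices; there are `n` and `t` with `n ≥ 4 (t - 1)` such that he wins
within `t` moves on `n` vertices; there is a `t` such that he wins within `t` moves on the infinite
board.
(4) If these statements are false, then for every `n` he does not win within `n / 4 + 1` moves on `n`
vertices. -/
theorem result (q : ℕ) (hq : 2 ≤ q) :
    (∀ t n m : ℕ, 4 * (t - 1) ≤ n → n ≤ m → WinsIn (Fin n) q t → WinsIn (Fin m) q t) ∧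
    (∀ t n : ℕ, 4 * (t - 1) ≤ n → WinsIn (Fin n) q t → WinsIn ℕ q t) ∧
    (∀ t n : ℕ, 4 * t ≤ n + 2 → WinsIn ℕ q t → WinsIn (Fin n) q t) ∧
    ((∃ t n₀ : ℕ, ∀ n ≥ n₀, WinsIn (Fin n) q t) ↔
      ∃ n t : ℕ, 4 * (t - 1) ≤ n ∧ WinsIn (Fin n) q t) ∧
    ((∃ t n₀ : ℕ, ∀ n ≥ n₀, WinsIn (Fin n) q t) ↔ ∃ t : ℕ, WinsIn ℕ q t) ∧
    (¬ (∃ t n₀ : ℕ, ∀ n ≥ n₀, WinsIn (Fin n) q t) → ∀ n : ℕ, ¬ WinsIn (Fin n) q (n / 4 + 1)) := by
  have h1 : ∀ t n m : ℕ, 4 * (t - 1) ≤ n → n ≤ m → WinsIn (Fin n) q t → WinsIn (Fin m) q t :=
    fun t n m h hnm hw => up_start hq hw Finset.univ (by simpa using h) (Fin.castLEEmb hnm)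
  have h2 : ∀ t n : ℕ, 4 * (t - 1) ≤ n → WinsIn (Fin n) q t → WinsIn ℕ q t :=
    fun t n h hw => up_start hq hw Finset.univ (by simpa using h) Fin.valEmbedding
  have h3 : ∀ t n : ℕ, 4 * t ≤ n + 2 → WinsIn ℕ q t → WinsIn (Fin n) q t :=
    fun t n h hw => down_start hq hw Finset.univ (by simpa using h) Fin.valEmbedding
  have h4 : (∃ t n₀ : ℕ, ∀ n ≥ n₀, WinsIn (Fin n) q t) ↔
      ∃ n t : ℕ, 4 * (t - 1) ≤ n ∧ WinsIn (Fin n) q t := by
    constructor
    · rintro ⟨t, n₀, h⟩
      exact ⟨max n₀ (4 * (t - 1)), t, le_max_right _ _, h _ (le_max_left _ _)⟩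
    · rintro ⟨n, t, h, hw⟩
      exact ⟨t, n, fun m hm => h1 t n m h hm hw⟩
  refine ⟨h1, h2, h3, h4, ?_, fun h n hw => h (h4.2 ⟨n, n / 4 + 1, by omega, hw⟩)⟩
  constructor
  · intro h
    obtain ⟨n, t, h5, hw⟩ := h4.1 h
    exact ⟨t, h2 t n h5 hw⟩
  · rintro ⟨t, hw⟩
    exact ⟨t, 4 * t, fun n hn => h3 t n (by omega) hw⟩

end Pool.Agent.Results.MP_4a944d_co.BoundedOrLinear
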